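import Pool.Agent.W186.EH.Spec

set_option autoImplicit false

/-!
# Dyadic blocks of the zeta sum from the `k`-th derivative test
-/

namespace Pool.Agent.W903.EH

open Complex Finset
open Pool.Agent.Helper153.Vdc (ee dd Cond)
open Pool.Agent.H442R2.EHI (EL EL_bounds SL SL_le)
open Pool.Agent.W186.EH (VB PS S_KT S_BK S_B1)

/-- Abel's inequality -/
theorem abel (w : ℕ → ℝ) (z : ℕ → ℂ) (B : ℝ) (L : ℕ) (hw : ∀ n, w (n + 1) ≤ w n)
    (hw0 : 0 ≤ w L) (hB : ∀ m ≤ L, ‖∑ n ∈ range m, z n‖ ≤ B) :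
    ‖∑ n ∈ range L, (w n : ℂ) * z n‖ ≤ w 0 * B := by
  have key : ∀ m ≤ L, ‖∑ n ∈ range m, (w n : ℂ) * z n - (w m : ℂ) * ∑ n ∈ range m, z n‖ ≤
      (w 0 - w m) * B := by
    intro m
    induction m with
    | zero => intro _; simp
    | succ m ih =>
      intro hm
      have h1 := ih (by omega)
      have e1 : ∑ n ∈ range (m + 1), (w n : ℂ) * z n -
          (w (m + 1) : ℂ) * ∑ n ∈ range (m + 1), z n =
          (∑ n ∈ range m, (w n : ℂ) * z n - (w m : ℂ) * ∑ n ∈ range m, z n) +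
          ((w m - w (m + 1) : ℝ) : ℂ) * ∑ n ∈ range (m + 1), z n := by
        rw [sum_range_succ, sum_range_succ]
        push_cast
        ring
      rw [e1]
      refine (norm_add_le _ _).trans ?_
      have h2 : ‖((w m - w (m + 1) : ℝ) : ℂ) * ∑ n ∈ range (m + 1), z n‖ ≤
          (w m - w (m + 1)) * B := by
        rw [norm_mul, Complex.norm_real, Real.norm_of_nonneg (by linarith [hw m])]
        exact mul_le_mul_of_nonneg_left (hB _ hm) (by linarith [hw m])
      linarith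
  have h1 := key L le_rfl
  have h2 : ‖(w L : ℂ) * ∑ n ∈ range L, z n‖ ≤ w L * B := by
    rw [norm_mul, Complex.norm_real, Real.norm_of_nonneg hw0]
    exact mul_le_mul_of_nonneg_left (hB _ le_rfl) hw0
  have e1 : ∑ n ∈ range L, (w n : ℂ) * z n =
      (∑ n ∈ range L, (w n : ℂ) * z n - (w L : ℂ) * ∑ n ∈ range L, z n) +
      (w L : ℂ) * ∑ n ∈ range L, z n := by ring
  rw [e1]
  refine (norm_add_le _ _).trans ?_
  linarith

theorem term_eq (σ t : ℝ) (x : ℝ) (hx : 0 < x) (m : ℕ) (hm : (m : ℝ) = x) :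
    (m : ℂ) ^ (-((σ : ℂ) + t * I)) =
      ((x ^ (-σ) : ℝ) : ℂ) * ee (-(t / (2 * Real.pi)) * Real.log x) := by
  have hm0 : (m : ℂ) ≠ 0 := by
    intro h
    have : (m : ℝ) = 0 := by exact_mod_cast h
    linarith
  have hlog : Complex.log (m : ℂ) = ((Real.log x : ℝ) : ℂ) := by
    rw [← hm]
    exact (Complex.natCast_log).symm
  rw [Complex.cpow_def_of_ne_zero hm0, hlog, Real.rpow_def_of_pos hx]
  unfold ee
  rw [Complex.ofReal_exp, ← Complex.exp_add]
  congr 1
  have hpi : ((Real.pi : ℝ) : ℂ) ≠ 0 := by exact_mod_cast Real.pi_ne_zero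
  push_cast
  field_simp
  ring

/-- differences of the reversed logarithm -/
theorem dd_EL (k : ℕ) : ∀ (a c : ℝ) (ls : List ℕ) (n : ℕ),
    dd k (fun n : ℕ => a * EL ls (c - n)) n =
      a * (-1) ^ k * EL (List.replicate k 1 ++ ls) (c - n - k) := by
  induction k with
  | zero => intro a c ls n; simp [dd]
  | succ k ih =>
    intro a c ls n
    have e1 : (fun n : ℕ => (fun n : ℕ => a * EL ls (c - n)) (n + 1) -
        (fun n : ℕ => a * EL ls (c - n)) n) =
        fun n : ℕ => (-a) * EL (1 :: ls) ((c - 1) - n) := by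
      funext m
      simp only [EL]
      push_cast
      have e2 : c - 1 - (m : ℝ) + 1 = c - m := by ring
      have e3 : c - ((m : ℝ) + 1) = c - 1 - m := by ring
      rw [e2, e3]
      ring
    rw [dd, e1, ih (-a) (c - 1) (1 :: ls) n]
    have e4 : List.replicate k 1 ++ 1 :: ls = List.replicate (k + 1) 1 ++ ls := by
      rw [List.replicate_succ', List.append_assoc]
      rfl
    rw [e4]
    have e5 : c - 1 - (n : ℝ) - k = c - n - ((k + 1 : ℕ) : ℝ) := by push_cast; ring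
    rw [e5, pow_succ]
    ring

theorem dd_log (k : ℕ) (a c : ℝ) (n : ℕ) :
    dd k (fun n : ℕ => a * Real.log (c - n)) n =
      a * (-1) ^ k * EL (List.replicate k 1) (c - n - k) := by
  have := dd_EL k a c [] n
  simpa [EL] using this

/-- the condition of the derivative test for the reversed logarithm -/
theorem cond_log {k : ℕ} (hk : 1 ≤ k) {Z : ℝ} (hZ : 0 < Z) {J m : ℕ} (hJ : 1 ≤ J) (hm : m ≤ J) :
    Cond k (fun n : ℕ => -Z * Real.log ((J : ℝ) + m - n)) m
      (Z * ((k - 1).factorial / (3 * (J : ℝ)) ^ k)) (3 ^ k) := by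
  have hJ' : (1 : ℝ) ≤ J := by exact_mod_cast hJ
  have hm' : (m : ℝ) ≤ J := by exact_mod_cast hm
  have key : ∀ j : ℕ, 1 ≤ j → ∀ n : ℕ, n + j < m →
      ((j - 1).factorial : ℝ) / (3 * (J : ℝ)) ^ j ≤
        (-1) ^ (j - 1) * EL (List.replicate j 1) ((J : ℝ) + m - n - j) ∧
      (-1) ^ (j - 1) * EL (List.replicate j 1) ((J : ℝ) + m - n - j) ≤
        ((j - 1).factorial : ℝ) / (J : ℝ) ^ j := by
    intro j hj n hn
    obtain ⟨i, rfl⟩ : ∃ i, j = i + 1 := ⟨j - 1, by omega⟩
    have hn' : (n : ℝ) + ((i + 1 : ℕ) : ℝ) + 1 ≤ m := by exact_mod_cast hn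
    have hn0 : (0 : ℝ) ≤ n := Nat.cast_nonneg n
    have h := EL_bounds 1 (List.replicate i 1) (N := (J : ℝ))
      (x := (J : ℝ) + m - n - ((i + 1 : ℕ) : ℝ)) (by linarith) (by linarith) (by
        have e1 : (1 :: List.replicate i 1).sum = i + 1 := by simp [add_comm]
        rw [e1]
        linarith)
    simp only [List.length_replicate, List.prod_cons, List.prod_replicate, one_pow, mul_one,
      Nat.cast_one] at h
    have e2 : (1 :: List.replicate i 1) = List.replicate (i + 1) 1 := rfl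
    rw [e2] at h
    simpa using h
  refine ⟨fun n hn => ?_, fun n hn => ?_⟩
  · have h := key k hk n hn
    rw [dd_log]
    have e1 : -Z * (-1) ^ k * EL (List.replicate k 1) ((J : ℝ) + m - n - k) =
        Z * ((-1) ^ (k - 1) * EL (List.replicate k 1) ((J : ℝ) + m - n - k)) := by
      obtain ⟨i, rfl⟩ : ∃ i, k = i + 1 := ⟨k - 1, by omega⟩
      rw [Nat.add_sub_cancel, pow_succ]
      ring
    rw [e1]
    constructor
    · exact mul_le_mul_of_nonneg_left h.1 hZ.le
    · refine (mul_le_mul_of_nonneg_left h.2 hZ.le).trans (le_of_eq ?_)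
      rw [mul_pow]
      field_simp
  · have h := key (k + 1) (by omega) n hn
    rw [dd_log]
    have e1 : -Z * (-1) ^ (k + 1) * EL (List.replicate (k + 1) 1)
          ((J : ℝ) + m - n - ((k + 1 : ℕ) : ℝ)) =
        Z * ((-1) ^ (k + 1 - 1) * EL (List.replicate (k + 1) 1)
          ((J : ℝ) + m - n - ((k + 1 : ℕ) : ℝ))) := by
      rw [Nat.add_sub_cancel, pow_succ]
      ring
    rw [e1]
    refine mul_nonneg hZ.le (le_trans ?_ h.1)
    positivity

/-- reversing the order of summation -/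
theorem sum_rev (Z : ℝ) (J m : ℕ) :
    ∑ n ∈ range m, ee (-Z * Real.log ((J : ℝ) + 1 + n)) =
      ∑ n ∈ range m, ee (-Z * Real.log ((J : ℝ) + m - n)) := by
  rw [← Finset.sum_range_reflect]
  refine sum_congr rfl fun n hn => ?_
  rw [Finset.mem_range] at hn
  have e1 : ((m - 1 - n : ℕ) : ℝ) = (m : ℝ) - 1 - n := by
    rw [Nat.cast_sub (by omega), Nat.cast_sub (by omega)]
    push_cast
    ring
  rw [e1]
  congr 3
  ring

/-- a dyadic block from bounds of the partial sums -/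
theorem block {σ t B : ℝ} (hσ : 0 < σ) (ht : 0 < t) {J : ℕ} (hJ : 1 ≤ J)
    (hB : ∀ m ≤ J, ‖∑ n ∈ range m, ee (-(t / (2 * Real.pi)) * Real.log ((J : ℝ) + 1 + n))‖ ≤ B) :
    ‖PS ((σ : ℂ) + t * I) (J + J) - PS ((σ : ℂ) + t * I) J‖ ≤ (J : ℝ) ^ (-σ) * B := by
  have hJ' : (1 : ℝ) ≤ J := by exact_mod_cast hJ
  have hJ0 : (0 : ℝ) < J := by linarith
  have hB0 : 0 ≤ B := by simpa using hB 0 (by omega)
  have e1 : PS ((σ : ℂ) + t * I) (J + J) - PS ((σ : ℂ) + t * I) J =
      ∑ n ∈ range J, (((((J : ℝ) + 1 + n) ^ (-σ) : ℝ)) : ℂ) *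
        ee (-(t / (2 * Real.pi)) * Real.log ((J : ℝ) + 1 + n)) := by
    unfold PS
    rw [sum_range_add, add_sub_cancel_left]
    apply sum_congr rfl
    intro n _
    rw [term_eq σ t ((J : ℝ) + 1 + n) (by positivity) (J + n + 1) (by push_cast; ring)]
  rw [e1]
  have h3 := abel (fun n => ((J : ℝ) + 1 + n) ^ (-σ))
    (fun n => ee (-(t / (2 * Real.pi)) * Real.log ((J : ℝ) + 1 + n))) B J ?_ ?_ hB
  · refine h3.trans ?_
    apply mul_le_mul_of_nonneg_right _ hB0
    exact Real.rpow_le_rpow_of_nonpos hJ0 (by simp) (by linarith)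
  · intro n
    apply Real.rpow_le_rpow_of_nonpos (by positivity) _ (by linarith)
    push_cast
    linarith
  · positivity

theorem VB_scale {k : ℕ} {c N x : ℝ} (hc : 0 < c) (hN : 0 < N) (hx : 0 < x) :
    VB k N (c * x) ≤ (c ^ (1 / ((2 : ℝ) ^ k - 2)) + c ^ (-(1 / ((2 : ℝ) ^ k - 2)))) * VB k N x := by
  unfold VB
  rw [Real.mul_rpow hc.le hx.le, Real.mul_rpow hc.le hx.le]
  set a := c ^ (1 / ((2 : ℝ) ^ k - 2)) with ha
  set b := c ^ (-(1 / ((2 : ℝ) ^ k - 2))) with hb
  set p := x ^ (1 / ((2 : ℝ) ^ k - 2)) with hp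
  set q := x ^ (-(1 / ((2 : ℝ) ^ k - 2))) with hq
  set r := N ^ (1 - 4 / (2 : ℝ) ^ k) with hr
  have ha0 : 0 < a := by positivity
  have hb0 : 0 < b := by positivity
  have hp0 : 0 < p := by positivity
  have hq0 : 0 < q := by positivity
  have hr0 : 0 < r := by positivity
  have h1 : 0 ≤ b * (N * p) := by positivity
  have h2 : 0 ≤ a * (r * q) := by positivity
  calc N * (a * p) + r * (b * q) = a * (N * p) + b * (r * q) := by ring
    _ ≤ a * (N * p) + b * (r * q) + (b * (N * p) + a * (r * q)) := by linarith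
    _ = (a + b) * (N * p + r * q) := by ring

theorem bk (h : S_KT) : S_BK := by
  intro k hk σ ε hσ hσ1 hε
  obtain ⟨C, hC, hC1⟩ := h k hk (3 ^ k) (one_le_pow₀ (by norm_num)) (ε / 2) (by positivity)
  set c : ℝ := (k - 1).factorial / (2 * Real.pi * 3 ^ k) with hc
  have hc0 : 0 < c := by
    have := Real.pi_pos
    rw [hc]
    positivity
  set D : ℝ := c ^ (1 / ((2 : ℝ) ^ k - 2)) + c ^ (-(1 / ((2 : ℝ) ^ k - 2))) with hD
  have hD0 : 0 < D := by rw [hD]; positivity
  refine ⟨C * D, by positivity, ?_⟩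
  intro t J ht hJ hJt
  have ht0 : 0 < t := by linarith
  have hpi := Real.pi_pos
  have hJ' : (1 : ℝ) ≤ J := by exact_mod_cast hJ
  have hJ0 : (0 : ℝ) < J := by linarith
  set Z : ℝ := t / (2 * Real.pi) with hZ
  have hZ0 : 0 < Z := by rw [hZ]; positivity
  have hlam : Z * ((k - 1).factorial / (3 * (J : ℝ)) ^ k) = c * (t / (J : ℝ) ^ k) := by
    rw [hZ, hc, mul_pow]
    field_simp
  have hx0 : 0 < t / (J : ℝ) ^ k := by positivity
  have hVB0 : 0 < VB k J (t / (J : ℝ) ^ k) := by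
    unfold VB
    positivity
  have hJε : (J : ℝ) ^ (ε / 2) ≤ t ^ ε := by
    calc (J : ℝ) ^ (ε / 2) ≤ (t ^ 2) ^ (ε / 2) := Real.rpow_le_rpow hJ0.le hJt (by positivity)
      _ = t ^ ε := by
          rw [← Real.rpow_natCast, ← Real.rpow_mul ht0.le]
          congr 1
          push_cast
          ring
  have hpart : ∀ m ≤ J, ‖∑ n ∈ range m, ee (-(t / (2 * Real.pi)) *
      Real.log ((J : ℝ) + 1 + n))‖ ≤ C * t ^ ε * (D * VB k J (t / (J : ℝ) ^ k)) := by
    intro m hm
    rw [← hZ, sum_rev Z J m]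
    have h1 := hC1 J m (fun n : ℕ => -Z * Real.log ((J : ℝ) + m - n))
      (Z * ((k - 1).factorial / (3 * (J : ℝ)) ^ k)) hJ hm (by positivity)
      (cond_log (by omega) hZ0 hJ hm)
    refine h1.trans ?_
    rw [hlam]
    have h2 := VB_scale (k := k) (N := (J : ℝ)) hc0 hJ0 hx0
    have hv0 : 0 ≤ VB k J (c * (t / (J : ℝ) ^ k)) := by
      unfold VB
      positivity
    apply mul_le_mul _ h2 hv0 (by positivity)
    exact mul_le_mul_of_nonneg_left hJε (by linarith)
  refine (block hσ ht0 hJ hpart).trans (le_of_eq ?_)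
  ring

theorem ee_eq (x : ℝ) : ee x = Pool.Agent.H469R2.NK.e x := by
  unfold ee Pool.Agent.H469R2.NK.e
  push_cast
  rfl

theorem b1 : S_B1 := by
  intro σ hσ hσ1
  have hpi := Real.pi_pos
  refine ⟨12 * Real.pi, by positivity, ?_⟩
  intro t J ht hJ hJt
  have ht0 : 0 < t := by linarith
  have hJ' : (1 : ℝ) ≤ J := by exact_mod_cast hJ
  have hJ0 : (0 : ℝ) < J := by linarith
  set Z : ℝ := t / (2 * Real.pi) with hZ
  have hZ0 : 0 < Z := by rw [hZ]; positivity
  have hpart : ∀ m ≤ J, ‖∑ n ∈ range m, ee (-(t / (2 * Real.pi)) *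
      Real.log ((J : ℝ) + 1 + n))‖ ≤ 12 * Real.pi * J / t := by
    intro m hm
    have hm' : (m : ℝ) ≤ J := by exact_mod_cast hm
    have h1 := SL_le Z hZ0 J ((J : ℝ) + 1) m hJ (by linarith) (by linarith) [] (by simp) (by
      simp only [List.length_nil, zero_add, Nat.factorial_zero, Nat.cast_one, List.prod_nil,
        mul_one, pow_one]
      rw [hZ]
      have h3 : 3 < Real.pi := Real.pi_gt_three
      have e1 : 2 * (t / (2 * Real.pi) * (1 / (J : ℝ))) = t / (Real.pi * J) := by field_simp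
      rw [e1, div_le_one (by positivity)]
      nlinarith)
    have e2 : ‖∑ n ∈ range m, ee (-(t / (2 * Real.pi)) * Real.log ((J : ℝ) + 1 + n))‖ =
        ‖SL Z ((J : ℝ) + 1) m []‖ := by
      unfold SL
      rw [← Pool.Agent.H469R2.NK.norm_sum_neg]
      simp only [List.sum_nil, Nat.sub_zero, EL]
      congr 1
      refine sum_congr rfl fun n _ => ?_
      rw [ee_eq, ← hZ]
      congr 1
      ring
    rw [e2]
    refine h1.trans (le_of_eq ?_)
    simp only [List.length_nil, zero_add, Nat.factorial_zero, Nat.cast_one, List.prod_nil,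
        mul_one, pow_one]
    rw [hZ]
    field_simp
    ring
  refine (block hσ ht0 hJ hpart).trans (le_of_eq ?_)
  rw [sub_eq_add_neg, Real.rpow_add hJ0, Real.rpow_one]
  ring

end Pool.Agent.W903.EH
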